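import Mathlib
import Pool.Agent.TH951.MN.Main

/-!
# Heights of points of bounded degree on the moduli spaces `M_{0,n}` over function fields

Let `X` be the moduli space of stable `n`-pointed rational curves and `D` its boundary, so that
`X \ D = M_{0,n}` is the set of tuples `(x_1, …, x_{n-3})` of distinct elements different from `0`
and `1`. Over function fields of characteristic zero the height of every point of `X \ D` of degree
at most `r` is bounded by a constant times `max (2 g - 2 + #S) 0`, where `S` is the set of places at
which the point meets `D`, without any discriminant, if `n` is large in terms of `r`.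
-/

set_option autoImplicit false

open FF Pool.Agent.W603.LV

namespace Pool.Agent.Results.MP_44a246_nt.BoundedDegreePointsOnM0n

universe u v w

/-- The place `P` of the extension `L` of `K` lies over the place `V` of `K`: the order at `P` is a
positive multiple of the order at `V` on `K`. -/
def LiesOver {k : Type u} [Field k] {K : Type v} [Field K] [Algebra k K] {L : Type w} [Field L]
    [Algebra k L] [Algebra K L] (P : Place k L) (V : Place k K) : Prop :=
  ∃ e : ℕ, 0 < e ∧ ∀ f : K, P.ord (algebraMap K L f) = e * V.ord f

/-- For every `r` there are `N` and `C` such that for all function fields `K` of one variable over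
an algebraically closed field `k` of characteristic zero, all finite extensions `L / K` of degree at
most `r` and all `n ≥ N`: if `x_1, …, x_n` are distinct elements of `L \ {0, 1}`, and `S` is a
finite set of places of `K` such that every place of `L` where one of the functions `x_i`,
`x_i - 1`, `x_i - x_j` (`i ≠ j`) has a zero or a pole lies over a place in `S`, then the number of
poles of each `x_i` is at most `C max (2 g - 2 + #S) 0`, where `g` is the genus of `K`. -/
theorem result (r : ℕ) : ∃ N C : ℕ, ∀ (k : Type u) [Field k] [IsAlgClosed k] [CharZero k]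
    (K : Type v) [Field K] [Algebra k K] [IsFF k K] (L : Type w) [Field L] [Algebra k L]
    [Algebra K L] [IsScalarTower k K L] [FiniteDimensional K L], Module.finrank K L ≤ r →
    ∀ (n : ℕ) (x : Fin n → L), N ≤ n → Function.Injective x → (∀ i, x i ≠ 0) → (∀ i, x i ≠ 1) →
    ∀ S : Finset (Place k K), (∀ P : Place k L, ((∃ i, P.ord (x i) ≠ 0) ∨
      (∃ i, P.ord (x i - 1) ≠ 0) ∨ ∃ i j, i ≠ j ∧ P.ord (x i - x j) ≠ 0) →
        ∃ V ∈ S, LiesOver P V) →
    ∀ i, hgt k (x i) ≤ C * max (canDeg k K + S.card) 0 := by
  obtain ⟨N, C, h⟩ := TH951.MN.main.{u, v, w} r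
  refine ⟨N, C, ?_⟩
  intro k _ _ _ K _ _ _ L _ _ _ _ _ hr n x hn hx hx0 hx1 S hS
  have hL : IsFF k L := Pool.Agent.W603.PV.isFF_of_finite (F := K)
  refine h k K L hr S (Fin n) (by simpa using hn) x hx hx0 hx1 ?_
  intro P hP
  have key : ¬ ((∃ i, P.ord (x i) ≠ 0) ∨
      (∃ i, P.ord (x i - 1) ≠ 0) ∨ ∃ i j, i ≠ j ∧ P.ord (x i - x j) ≠ 0) := by
    intro hbad
    obtain ⟨V, hV, e, he, hPV⟩ := hS P hbad
    apply hP
    have : Pool.Agent.W603.PV.under K P = V := by
      refine TH951.MN.place_eq_of_mul _ _ (Pool.Agent.W603.PV.ram K P) e
        (Pool.Agent.W603.PV.ram_spec (F := K) P).1 fun f => ?_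
      rw [← Pool.Agent.W603.PV.ord_under, hPV]
    rw [this]
    exact hV
  push Not at key
  exact ⟨key.1, key.2.1, key.2.2⟩

end Pool.Agent.Results.MP_44a246_nt.BoundedDegreePointsOnM0n
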