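import Pool.Agent.TH867.HP.Main

/-! Rational points of projective space with small truncated counting function with respect to
hyperplanes in general position lie in few hyperplanes. -/

set_option autoImplicit false

namespace Pool.Agent.Results.MP_44a246_nt.FewHyperplanes

open Finset

/-- the value of the linear form with coefficients `a` at `x` -/
def form {m : ℕ} (a x : Fin (m + 1) → ℤ) : ℤ := ∑ j, a j * x j

/-- coprime integer coordinates: each point of `ℙ^m(ℚ)` has exactly two such vectors, `x` and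
`-x` -/
def Primitive {m : ℕ} (x : Fin (m + 1) → ℤ) : Prop := ∀ d : ℤ, (∀ j, d ∣ x j) → IsUnit d

/-- the height `h(x) = log max |x_j|` of a point with coprime integer coordinates -/
noncomputable def h {m : ℕ} (x : Fin (m + 1) → ℤ) : ℝ :=
  Real.log ((Finset.univ.sup fun j => (x j).natAbs : ℕ) : ℝ)

/-- the hyperplanes `L i = 0` are in general position: any `m + 1` of the linear forms are
linearly independent -/
def GeneralPosition {m q : ℕ} (L : Fin q → Fin (m + 1) → ℤ) : Prop :=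
  ∀ s : Fin (m + 1) → Fin q, Function.Injective s → (Matrix.of fun a b => L (s a) b).det ≠ 0

/-- the part of the truncated counting function `N_S^{(1)}(D, x)`, `D` the sum of the hyperplanes
`L i = 0`, that comes from the primes `p ≤ y`: the sum of `log p` over the primes `p ≤ y` outside
`S` that divide one of the values `L i (x)` -/
noncomputable def N1 {m q : ℕ} (L : Fin q → Fin (m + 1) → ℤ) (S : Finset ℕ) (y : ℝ)
    (x : Fin (m + 1) → ℤ) : ℝ :=
  ∑ p ∈ ((∏ i, form (L i) x).natAbs.primeFactors.filter (fun p : ℕ => (p : ℝ) ≤ y)) \ S,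
    Real.log p

/-- the sum over `i` and over the primes `p > y` of the local heights
`λ_{i,p}(x) = v_p(L i (x)) log p` -/
noncomputable def big {m q : ℕ} (L : Fin q → Fin (m + 1) → ℤ) (y : ℝ)
    (x : Fin (m + 1) → ℤ) : ℝ :=
  ∑ i, ∑ p ∈ (form (L i) x).natAbs.primeFactors.filter (fun p : ℕ => y < p),
    ((form (L i) x).natAbs.factorization p : ℝ) * Real.log p

open Pool.Agent.TH867.HP in
theorem pt_of {m q : ℕ} {L : Fin q → Fin (m + 1) → ℤ} {x : Fin (m + 1) → ℤ}
    (hx : Primitive x) (hne : ∀ i, form (L i) x ≠ 0) : Pt L x := by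
  refine ⟨fun p hp hd => ?_, hne⟩
  have h1 := hx p hd
  rw [Int.isUnit_iff] at h1
  have h2 := hp.one_lt
  rcases h1 with h1 | h1 <;> omega

open Pool.Agent.TH867.HP in
theorem Np_eq {m q : ℕ} (L : Fin q → Fin (m + 1) → ℤ) (x : Fin (m + 1) → ℤ) :
    Np L x = (∏ i, form (L i) x).natAbs := by
  unfold Np
  rw [← Int.natAbsHom_apply, map_prod]
  rfl

open Pool.Agent.TH867.HP in
theorem big_eq {m q : ℕ} {L : Fin q → Fin (m + 1) → ℤ} {x : Fin (m + 1) → ℤ} (hx : Pt L x)
    (y : ℝ) : ∑ p ∈ (Np L x).primeFactors.filter (fun p : ℕ => ¬ (p : ℝ) ≤ y),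
      ∑ i, (fv L x i p : ℝ) * Real.log p = big L y x := by
  classical
  rw [Finset.sum_comm]
  unfold big
  refine Finset.sum_congr rfl fun i _ => ?_
  symm
  have hsub : (form (L i) x).natAbs.primeFactors.filter (fun p : ℕ => y < p) ⊆
      (Np L x).primeFactors.filter (fun p : ℕ => ¬ (p : ℝ) ≤ y) := by
    intro p hp
    obtain ⟨h1, h2⟩ := Finset.mem_filter.1 hp
    refine Finset.mem_filter.2 ⟨?_, not_le.2 h2⟩
    exact Nat.primeFactors_mono (Finset.dvd_prod_of_mem (fun i => va L x i) (Finset.mem_univ i))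
      (Np_pos hx).ne' h1
  refine Finset.sum_subset hsub fun p hp hnp => ?_
  have h1 : p ∉ (va L x i).primeFactors := by
    intro h2
    apply hnp
    refine Finset.mem_filter.2 ⟨h2, not_le.1 (Finset.mem_filter.1 hp).2⟩
  rw [← Nat.support_factorization, Finsupp.notMem_support_iff] at h1
  have h2 : (form (L i) x).natAbs.factorization p = 0 := h1
  rw [h2]
  simp

theorem result : ∀ (m q : ℕ), 1 ≤ m → ∀ L : Fin q → Fin (m + 1) → ℤ, GeneralPosition L →
    ∀ (S : Finset ℕ) (ρ ε : ℝ), 0 ≤ ρ → ρ < (q : ℝ) - m - 1 → 0 < ε →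
    ∃ C : ℝ, 0 < C ∧ ∀ X y H : ℝ, 1 ≤ X → 1 ≤ y → 1 ≤ H →
      ∃ V : Finset (Fin (m + 1) → ℤ), (∀ v ∈ V, v ≠ 0) ∧
        (V.card : ℝ) ≤ C * y * X ^ (((m : ℝ) + 1) / ((q : ℝ) - ρ) + ε) * (1 + Real.log H) ∧
        ∀ x : Fin (m + 1) → ℤ, Primitive x → (∀ i, form (L i) x ≠ 0) → h x ≤ H →
          N1 L S y x ≤ Real.log X → big L y x ≤ ρ * h x → ∃ v ∈ V, form v x = 0 := by
  intro m q hm L hL S ρ ε hρ0 hρ hε
  obtain ⟨D, hD, hmain⟩ := Pool.Agent.TH867.HP.main_planes (m := m) (q := q) hm (L := L) hL hρ0 hρ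
    S hε
  refine ⟨D, hD, fun X y H hX hy hH => ?_⟩
  obtain ⟨V, h1, h2, h3⟩ := hmain X y H hX hy hH
  refine ⟨V, h1, h2, fun x hx hne hxH hN hB => ?_⟩
  have hpt := pt_of hx hne
  refine h3 x hpt hxH ?_ ?_
  · rw [Np_eq]
    exact hN
  · rw [big_eq hpt]
    exact hB

end Pool.Agent.Results.MP_44a246_nt.FewHyperplanes
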