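import Pool.Agent.TH876.QD.Main

/-!
# Vojta's conjecture with truncated counting function for quadratic points of the line

`X` is the projective line over `ℚ`, `D = 0 + 1 + ∞`, `S` the archimedean place, `r = 2`. For an
algebraic number `x` of degree two, `d(x) + N^(1)(D, x) = 1/2 log (|disc ℚ(x)| N(rad x))`, where
`rad x` is the product of the primes of `ℚ(x)` at which `x` or `1 - x` is not a unit; `K_X + D` has
degree one.
-/

set_option autoImplicit false

namespace Pool.Agent.Results.MP_44a246_nt.QuadraticPoints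

open NumberField IsDedekindDomain IntermediateField

/-- the field generated by an algebraic number is a number field -/
theorem numberField_adjoin (x : AlgebraicClosure ℚ) : NumberField ℚ⟮x⟯ :=
  Pool.Agent.TH876.QD.numberField_adjoin x

/-- the truncated counting function of `x` relative to `0 + 1 + ∞`: the sum of `log N(v)` over the
primes `v` of `ℚ(x)` at which `x` or `1 - x` is not a unit, divided by `[ℚ(x) : ℚ]` -/
noncomputable def counting (x : AlgebraicClosure ℚ) : ℝ :=
  haveI := numberField_adjoin x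
  (∑ᶠ v ∈ {v : HeightOneSpectrum (𝓞 ℚ⟮x⟯) |
    ¬ (v.valuation ℚ⟮x⟯ (AdjoinSimple.gen ℚ x) = 1 ∧
      v.valuation ℚ⟮x⟯ (1 - AdjoinSimple.gen ℚ x) = 1)},
    Real.log (Ideal.absNorm v.asIdeal : ℝ)) / (Module.finrank ℚ ℚ⟮x⟯ : ℝ)

/-- the logarithmic discriminant of `ℚ(x)` -/
noncomputable def logDisc (x : AlgebraicClosure ℚ) : ℝ :=
  haveI := numberField_adjoin x
  Real.log |(NumberField.discr ℚ⟮x⟯ : ℝ)| / (Module.finrank ℚ ℚ⟮x⟯ : ℝ)

/-- the absolute logarithmic height of `x` -/
noncomputable def height (x : AlgebraicClosure ℚ) : ℝ :=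
  haveI := numberField_adjoin x
  Height.logHeight₁ (AdjoinSimple.gen ℚ x) / (Module.finrank ℚ ℚ⟮x⟯ : ℝ)

/-- the algebraic numbers `x` of degree two with `N^(1)(0 + 1 + ∞, x) + d(x) ≤ T` and of height at
most `H` -/
def Points (T H : ℝ) : Set (AlgebraicClosure ℚ) :=
  {x | Module.finrank ℚ ℚ⟮x⟯ = 2 ∧ counting x + logDisc x ≤ T ∧ height x ≤ H}

theorem log_finprod {α : Type} (s : Set α) (f : α → ℝ) (hf : ∀ v, 1 < f v) :
    0 < ∏ᶠ v ∈ s, f v ∧ Real.log (∏ᶠ v ∈ s, f v) = ∑ᶠ v ∈ s, Real.log (f v) := by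
  classical
  by_cases h : s.Finite
  · rw [finprod_mem_eq_finite_toFinset_prod _ h, finsum_mem_eq_finite_toFinset_sum _ h]
    exact ⟨Finset.prod_pos fun v _ => by linarith [hf v],
      Real.log_prod fun v _ => by linarith [hf v]⟩
  · have h1 : (s ∩ Function.mulSupport f).Infinite := by
      have : Function.mulSupport f = Set.univ := by
        ext v
        simp only [Function.mem_mulSupport, Set.mem_univ, iff_true]
        exact (hf v).ne'
      rw [this, Set.inter_univ]
      exact h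
    have h2 : (s ∩ Function.support fun v => Real.log (f v)).Infinite := by
      have : (Function.support fun v => Real.log (f v)) = Set.univ := by
        ext v
        simp only [Function.mem_support, Set.mem_univ, iff_true]
        exact (Real.log_pos (hf v)).ne'
      rw [this, Set.inter_univ]
      exact h
    rw [finprod_mem_eq_one_of_infinite h1, finsum_mem_eq_zero_of_infinite h2]
    exact ⟨one_pos, Real.log_one⟩

theorem mem_quadPts {x : AlgebraicClosure ℚ} {T H : ℝ} (hx : x ∈ Points T H) :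
    x ∈ Pool.Agent.TH876.QD.QuadPts (Real.exp (2 * T)) ∧
      Pool.Agent.TH876.QD.absHeight x ≤ H := by
  obtain ⟨h1, h2, h3⟩ := hx
  refine ⟨⟨h1, ?_⟩, h3⟩
  have := numberField_adjoin x
  have hr := log_finprod {v : HeightOneSpectrum (𝓞 ℚ⟮x⟯) |
    ¬ (v.valuation ℚ⟮x⟯ (AdjoinSimple.gen ℚ x) = 1 ∧
      v.valuation ℚ⟮x⟯ (1 - AdjoinSimple.gen ℚ x) = 1)}
    (fun v => (Ideal.absNorm v.asIdeal : ℝ)) (fun v => by
      have := Pool.Agent.H691R3.two_le_Nv v
      have e : Pool.Agent.H691R3.Nv v = (Ideal.absNorm v.asIdeal : ℝ) := rfl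
      rw [← e]
      linarith)
  obtain ⟨hr0, hr1⟩ := hr
  have hd0 : 0 < |(NumberField.discr ℚ⟮x⟯ : ℝ)| := by
    rw [abs_pos]
    exact_mod_cast NumberField.discr_ne_zero ℚ⟮x⟯
  have hc : counting x = Real.log (Pool.Agent.TH876.QD.radNorm x) / 2 := by
    unfold counting Pool.Agent.TH876.QD.radNorm
    rw [h1, hr1]
    norm_num
  have hl : logDisc x = Real.log (Pool.Agent.TH876.QD.absDisc x) / 2 := by
    unfold logDisc Pool.Agent.TH876.QD.absDisc
    rw [h1]
    norm_num
  rw [hc, hl] at h2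
  have hR : 0 < Pool.Agent.TH876.QD.radNorm x := hr0
  have hD : 0 < Pool.Agent.TH876.QD.absDisc x := hd0
  rw [← Real.log_le_iff_le_exp (mul_pos hD hR), Real.log_mul hD.ne' hR.ne']
  linarith

/-- For every `A` there is `δ > 0` such that for all `T ≥ 1` at most `C exp ((2 - δ) T)` algebraic
numbers `x` of degree two satisfy `N^(1)(0 + 1 + ∞, x) + d(x) ≤ T` and `h(x) ≤ T ^ A`. -/
theorem result (A : ℝ) : ∃ δ : ℝ, 0 < δ ∧ ∃ C : ℝ, ∀ T : ℝ, 1 ≤ T →
    (Points T (T ^ A)).Finite ∧
      ((Points T (T ^ A)).ncard : ℝ) ≤ C * Real.exp ((2 - δ) * T) := by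
  obtain ⟨⟨C1, k, hfin⟩, hq⟩ :=
    Pool.Agent.TH876.QD.finQ Pool.Agent.TH876.QD.all_heights Pool.Agent.TH876.QD.poly_heights
  obtain ⟨δ, hδ, C, hC⟩ := hq (max A 0)
  refine ⟨2 * δ, by positivity, C, fun T hT => ?_⟩
  have hT0 : 0 < T := by linarith
  have he : 3 ≤ Real.exp (2 * T) := by
    have h1 : Real.exp 1 ^ 2 ≤ Real.exp (2 * T) := by
      rw [← Real.exp_nat_mul]
      exact Real.exp_le_exp.2 (by push_cast; linarith)
    have h2 := Real.exp_one_gt_d9
    nlinarith
  have hfinite : (Pool.Agent.TH876.QD.QuadPts (Real.exp (2 * T))).Finite := by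
    refine (hfin (16 + Real.exp (2 * T)) (by linarith)).1.subset ?_
    intro x hx
    exact ⟨hx.1, hx.2.trans (by linarith)⟩
  have hsub : Points T (T ^ A) ⊆ {x ∈ Pool.Agent.TH876.QD.QuadPts (Real.exp (2 * T)) |
      Pool.Agent.TH876.QD.absHeight x ≤ Real.log (Real.exp (2 * T)) ^ max A 0} := by
    intro x hx
    obtain ⟨h1, h2⟩ := mem_quadPts hx
    refine ⟨h1, h2.trans ?_⟩
    rw [Real.log_exp]
    calc T ^ A ≤ T ^ max A 0 := Real.rpow_le_rpow_of_exponent_le hT (le_max_left _ _)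
      _ ≤ (2 * T) ^ max A 0 :=
          Real.rpow_le_rpow hT0.le (by linarith) (le_max_right _ _)
  have hfin2 : ({x ∈ Pool.Agent.TH876.QD.QuadPts (Real.exp (2 * T)) |
      Pool.Agent.TH876.QD.absHeight x ≤ Real.log (Real.exp (2 * T)) ^ max A 0}).Finite :=
    hfinite.subset fun x hx => hx.1
  refine ⟨hfin2.subset hsub, ?_⟩
  refine le_trans (Nat.cast_le.2 (Set.ncard_le_ncard hsub hfin2)) ((hC _ he).trans (le_of_eq ?_))
  rw [← Real.exp_mul]
  congr 2
  ring

end Pool.Agent.Results.MP_44a246_nt.QuadraticPoints
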