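import Pool.Agent.TH875.Vg.FinU

set_option autoImplicit false

/-!
# Very general moving hypersurface sections together with arbitrary moving hyperplane sections of a
# projective variety: an inequality with truncated counting for all algebraic points

`k` is an algebraically closed field of characteristic zero and `F` a function field of one variable
over `k`. `X ⊆ ℙ^n` is an arbitrary projective variety over `F`, given by a homogeneous ideal `I`,
and `π : X → ℙ^m` is a finite projection, given by linear forms `p 0, ..., p m` without common zero
on `X`. The divisor on `X` is the sum of the hypersurface sections `D i = X ∩ {h i + g i = 0}`, where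
the `h i` are arbitrary forms over `F` and the `g i` very general forms over `k`, and of at most
`m + 2` hyperplane sections `H j`, the pull-backs under `π` of arbitrary hyperplanes of `ℙ^m` over
`F` in general position. The case `X = ℙ^n`, `π = id`, is that of `I = 0`, `m = n` and the
coordinates `p i`.
-/

namespace Pool.Agent.Results.MP_44a246_nt.VeryGeneralPairs

open FF MvPolynomial

section

variable (k F : Type) {L : Type} [Field k] [Field F] [Field L] [Algebra k L] [Algebra F L]

/-- The least order at the place `P` of the coordinates of a point. -/
noncomputable def minOrd {n : ℕ} (P : Place k L) (x : Fin (n + 1) → L) : ℤ :=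
  ⨅ j : {j // x j ≠ 0}, P.ord (x j)

/-- The height of the point with homogeneous coordinates `x`: minus the sum over the places of `L`
of the least order of the coordinates. It is `[L : F]` times the height relative to `F`. -/
noncomputable def height {n : ℕ} (x : Fin (n + 1) → L) : ℤ := - ∑ᶠ P : Place k L, minOrd k P x

/-- The ramification index over `F` of the place `P` of `L`. -/
noncomputable def ramification (P : Place k L) : ℕ :=
  sInf {m : ℕ | 0 < m ∧ ∃ x : F, P.ord (algebraMap F L x) = m}

variable (L) in
/-- The degree of the discriminant of the extension `L` of `F`: the sum over the places of `L` of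
`e - 1`, where `e` is the ramification index. It is `[L : F]` times the logarithmic discriminant. -/
noncomputable def discriminant : ℤ := ∑ᶠ P : Place k L, ((ramification k F P : ℤ) - 1)

variable {k F}

/-- The value at the point `x` of the linear form with coefficients `c`. -/
noncomputable def lin {n : ℕ} (c : Fin (n + 1) → F) (x : Fin (n + 1) → L) : L :=
  ∑ a, algebraMap F L (c a) * x a

/-- The coefficients of the pull-backs under the projection given by the linear forms `p i` of the
linear forms with coefficients `A j`: the `j`-th one is the linear form `∑ i, A j i * p i`. -/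
def pull {n m b : ℕ} (A : Fin b → Fin (m + 1) → F) (p : Fin (m + 1) → Fin (n + 1) → F)
    (j : Fin b) (a : Fin (n + 1)) : F := ∑ i, A j i * p i a

/-- The set of the places `P` of `L`, not above a place in `S`, at which the point `x` meets one of
the hypersurfaces `f i = 0` (of degree `d i`) or one of the hyperplanes `l j = 0` that do not
contain `x`. Its cardinality is `[L : F]` times the truncated counting function of the divisor of
these hypersurfaces and hyperplanes. -/
def meets [Algebra k F] {n q b : ℕ} (S : Finset (Place k F)) (d : Fin q → ℕ)
    (f : Fin q → MvPolynomial (Fin (n + 1)) F) (l : Fin b → Fin (n + 1) → F)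
    (x : Fin (n + 1) → L) : Set (Place k L) :=
  {P | (∀ v ∈ S, ¬ ∀ y : F, 0 < v.ord y → 0 < P.ord (algebraMap F L y)) ∧
    ((∃ i, aeval x (f i) ≠ 0 ∧ d i * minOrd k P x < P.ord (aeval x (f i))) ∨
      ∃ j, lin (l j) x ≠ 0 ∧ minOrd k P x < P.ord (lin (l j) x))}

end

open Classical in
/-- Let `I` be a homogeneous ideal of the polynomial ring in `n + 1` variables over `F`, defining
`X ⊆ ℙ^n`, and let `p i`, `i ≤ m`, be linear forms over `F` without common zero on `X` (over the
finite extensions of `F`). Let `h i`, `i < q`, be arbitrary forms of degrees `d i ≥ 1` in `n + 1`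
variables over `F`, and let `A j`, `j < b`, `b ≤ m + 2`, be the coefficients of linear forms in
`m + 1` variables over `F` any `m + 1` of which (or all of which, if `b ≤ m`) are linearly
independent; let `l j = ∑ i, A j i * p i`. There is a countable subfield `k₁` of `k` such that, for
every finite set `S` of places of `F`, there is a constant `C` with the following property. Let
`g i` be forms of degrees `d i` over `k` all of whose coefficients together are algebraically
independent over `k₁`, and `f i = h i + g i`. For every finite extension `L` of `F` and every point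
`x` of `X(L)`,
`(∑ i, d i + b - 2 m - 1 + #Z) h(x) ≤ N + disc(L/F) + C [L : F]`,
where `Z` is the set of those of the hypersurfaces `f i = 0` and hyperplanes `l j = 0` that contain
`x`, and `N` is the number of the places of `L` not above `S` at which `x` meets one of the other
hypersurfaces or hyperplanes. -/
theorem result (k F : Type) [Field k] [IsAlgClosed k] [CharZero k] [Field F] [Algebra k F]
    [IsFF k F] (n m q b : ℕ) (I : Ideal (MvPolynomial (Fin (n + 1)) F))
    (hI : ∀ f ∈ I, ∀ N, homogeneousComponent N f ∈ I) (p : Fin (m + 1) → Fin (n + 1) → F)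
    (hp : ∀ (E : Type) [Field E] [Algebra F E] [FiniteDimensional F E] (y : Fin (n + 1) → E),
      (∀ f ∈ I, aeval y f = 0) → (∀ i, lin (p i) y = 0) → y = 0)
    (d : Fin q → ℕ) (hd : ∀ i, 1 ≤ d i)
    (h : Fin q → MvPolynomial (Fin (n + 1)) F) (hh : ∀ i, (h i).IsHomogeneous (d i))
    (hb : b ≤ m + 2) (A : Fin b → Fin (m + 1) → F)
    (hA : ∀ s : Finset (Fin b), s.card ≤ m + 1 → LinearIndependent F fun j : s => A j) :
    ∃ k₁ : Subfield k, Countable k₁ ∧ ∀ S : Finset (Place k F), ∃ C : ℕ,
      ∀ g : Fin q → MvPolynomial (Fin (n + 1)) k, (∀ i, (g i).IsHomogeneous (d i)) →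
      AlgebraicIndependent k₁ (fun p : (i : Fin q) × {α : Fin (n + 1) →₀ ℕ // α.degree = d i} =>
        (g p.1).coeff p.2.1) →
      ∀ (L : Type) [Field L] [Algebra k L] [Algebra F L] [IsScalarTower k F L]
          [FiniteDimensional F L] (x : Fin (n + 1) → L), x ≠ 0 → (∀ f ∈ I, aeval x f = 0) →
        (meets S d (fun i => h i + map (algebraMap k F) (g i)) (pull A p) x).Finite ∧
        (∑ i, (d i : ℤ) + b - 2 * m - 1 +
            (Finset.univ.filter fun i => aeval x (h i + map (algebraMap k F) (g i)) = 0).card +
            (Finset.univ.filter fun j => lin (pull A p j) x = 0).card) *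
          height k x ≤
            (meets S d (fun i => h i + map (algebraMap k F) (g i)) (pull A p) x).ncard +
            discriminant k F L + C * Module.finrank F L := by
  obtain ⟨k₁, hk₁, h1⟩ := Pool.Agent.TH875.Vg.final_U (k := k) (d := d) hd hh hI hp hb hA
  refine ⟨k₁, hk₁, fun S => ?_⟩
  obtain ⟨C, hC⟩ := h1 S
  refine ⟨C, fun g hg hai L _ _ _ _ _ x hx hxI => ?_⟩
  exact hC g hg (hai.comp
    (fun p : (i : Fin q) × Pool.Agent.TH875.Vg.Expo n (d i) =>
      (⟨p.1, ⟨p.2.1, (Pool.Agent.TH875.Vg.mem_expo p.2.1).1 p.2.2⟩⟩ :
        (i : Fin q) × {α : Fin (n + 1) →₀ ℕ // α.degree = d i})) (by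
      rintro ⟨i, α⟩ ⟨j, β⟩ hab
      simp only [Sigma.mk.injEq] at hab
      obtain ⟨rfl, hab⟩ := hab
      rw [heq_eq_eq, Subtype.mk.injEq] at hab
      rw [Subtype.ext hab])) L x (by
    by_contra hcon
    push Not at hcon
    exact hx (funext hcon)) hxI

end Pool.Agent.Results.MP_44a246_nt.VeryGeneralPairs
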